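import Pool.Agent.R650.BaseSize

/-!
# MP_2beb52_al: a gap in the base size set of a finite group

There is a group `G` of order 80 (`G = F_2^4 ⋊ C_5`, with `C_5` acting irreducibly on `F_2^4`)
having a faithful action of base size 4, but no faithful action of base size 3.  So `𝓑(G)` is not
of the form `{1, …, k}`, and the assertion of Q1 is false.

The definitions are in `Pool/Agent/R650/BaseSizeDefs.lean`; the group is `G80` in
`Pool/Agent/R650/BaseSize.lean` (pairs of an even weight vector of length five over `F_2` and a
cyclic rotation).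
-/

set_option autoImplicit false

namespace Pool.Agent.Results.MP_2beb52_al.GapInBaseSizes

open Pool.Agent.R650.BaseSize (baseSizeSet)

/-- Some group of order 80 has a faithful action on a finite set with base size 4 but none with
base size 3; hence it is not true that the base size set of every nontrivial finite group is
`{1, …, k}` for some `k ≥ 1`. -/
theorem result :
    (∃ (G : Type) (_ : Group G),
      Nat.card G = 80 ∧ 4 ∈ baseSizeSet G ∧ 3 ∉ baseSizeSet G) ∧
    ¬ ∀ (G : Type) [Group G] [Finite G] [Nontrivial G],
      ∃ k : ℕ, 1 ≤ k ∧ baseSizeSet G = Set.Icc 1 k := by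
  refine ⟨⟨Pool.Agent.R650.BaseSize.G80, inferInstance, Pool.Agent.R650.BaseSize.card_G80,
    Pool.Agent.R650.BaseSize.four_mem, Pool.Agent.R650.BaseSize.three_notMem⟩, fun h => ?_⟩
  obtain ⟨k, -, hk⟩ := h Pool.Agent.R650.BaseSize.G80
  have h4 := Pool.Agent.R650.BaseSize.four_mem
  have h3 := Pool.Agent.R650.BaseSize.three_notMem
  rw [hk, Set.mem_Icc] at h4 h3
  exact h3 ⟨by norm_num, by omega⟩

end Pool.Agent.Results.MP_2beb52_al.GapInBaseSizes
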